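import Pool.Agent.H705.RO.Stm

/-! PAIR of helper705's project RO (MP_a499ba_nt). -/

set_option autoImplicit false

namespace Pool.Agent.H922.ROP

open MeasureTheory Filter Topology Pool.Agent.H705.RO

theorem nr_add_int (δ y : ℝ) (n : ℤ) : nr δ (y + n) ↔ nr δ y := by
  unfold nr
  rw [round_add_intCast]
  push_cast
  rw [add_sub_add_right_eq_sub]

/-- translation of the unit interval for periodic sets -/
theorem shift (B : Set ℝ) (hB : MeasurableSet B) (hper : ∀ (y : ℝ) (n : ℤ), y + n ∈ B ↔ y ∈ B)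
    (z : ℝ) : (volume : Measure ℝ) {v : ℝ | v ∈ Set.Icc (0 : ℝ) 1 ∧ z + v ∈ B} =
      (volume : Measure ℝ) {v : ℝ | v ∈ Set.Icc (0 : ℝ) 1 ∧ v ∈ B} := by
  have e1 : ∀ C : Set ℝ, (volume : Measure ℝ) {v : ℝ | v ∈ Set.Icc (0 : ℝ) 1 ∧ v ∈ C} =
      (volume : Measure ℝ) {v : ℝ | v ∈ Set.Ioc (0 : ℝ) 1 ∧ v ∈ C} := by
    intro C
    apply measure_congr
    have h : (Set.Icc (0 : ℝ) 1 : Set ℝ) =ᵐ[volume] Set.Ioc (0 : ℝ) 1 := Ioc_ae_eq_Icc.symm
    exact h.inter (ae_eq_refl C)
  have e2 := e1 ((fun v => z + v) ⁻¹' B)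
  have e3 := e1 B
  have e4 : {v : ℝ | v ∈ Set.Icc (0 : ℝ) 1 ∧ z + v ∈ B} =
      {v : ℝ | v ∈ Set.Icc (0 : ℝ) 1 ∧ v ∈ (fun v => z + v) ⁻¹' B} := rfl
  rw [e4, e2, e3]
  have e5 : {v : ℝ | v ∈ Set.Ioc (0 : ℝ) 1 ∧ v ∈ (fun v => z + v) ⁻¹' B} =
      (fun v => z + v) ⁻¹' (B ∩ Set.Ioc z (z + 1)) := by
    ext v
    simp only [Set.mem_ofPred_eq, Set.mem_preimage, Set.mem_inter_iff, Set.mem_Ioc]
    constructor
    · rintro ⟨⟨h1, h2⟩, h3⟩
      exact ⟨h3, by linarith, by linarith⟩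
    · rintro ⟨h3, h1, h2⟩
      exact ⟨⟨by linarith, by linarith⟩, h3⟩
  rw [e5, measure_preimage_add]
  have f1 := isAddFundamentalDomain_Ioc (T := (1 : ℝ)) zero_lt_one z
  have f2 := isAddFundamentalDomain_Ioc (T := (1 : ℝ)) zero_lt_one 0
  have h6 := f1.measure_set_eq f2 hB (by
    intro g
    obtain ⟨n, hn⟩ := AddSubgroup.mem_zmultiples_iff.1 g.2
    ext x
    simp only [Set.mem_preimage, AddSubgroup.vadd_def, vadd_eq_add]
    rw [← hn]
    rw [zsmul_eq_mul, mul_one, add_comm]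
    exact hper x n)
  rw [h6, zero_add]
  congr 1
  ext v
  simp only [Set.mem_inter_iff, Set.mem_ofPred_eq]
  exact and_comm

theorem T_PAIR (hARC : P_ARC) (hARU : P_ARU) : P_PAIR := by
  obtain ⟨-, harc2, hmeas⟩ := hARC
  constructor
  · intro c l δ h0 h1
    have hm : MeasurableSet {p : ℝ × ℝ | nr δ (c + l * p.1 + p.2)} := by
      have : Measurable (fun p : ℝ × ℝ => c + l * p.1 + p.2) := by fun_prop
      exact this (hmeas δ)
    unfold Pool.Agent.H705.RO.sq
    rw [Measure.prod_apply hm]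
    have h2 : ∀ u : ℝ, ((volume : Measure ℝ).restrict (Set.Icc (0 : ℝ) 1))
        (Prod.mk u ⁻¹' {p : ℝ × ℝ | nr δ (c + l * p.1 + p.2)}) = ENNReal.ofReal δ := by
      intro u
      rw [Measure.restrict_apply (measurable_prodMk_left hm), ← harc2 (c + l * u) δ h0 h1]
      congr 1
      ext v
      simp only [Set.mem_inter_iff, Set.mem_preimage, Set.mem_ofPred_eq]
      exact and_comm
    simp only [h2]
    rw [lintegral_const, Measure.restrict_apply MeasurableSet.univ, Set.univ_inter,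
      Real.volume_Icc]
    simp
  · intro c l c' l' δ hll h0 h1
    have hd : l - l' ≠ 0 := sub_ne_zero.2 hll
    have hm : MeasurableSet {p : ℝ × ℝ | nr δ (c + l * p.1 + p.2) ∧ nr δ (c' + l' * p.1 + p.2)} := by
      have e1 : Measurable (fun p : ℝ × ℝ => c + l * p.1 + p.2) := by fun_prop
      have e2 : Measurable (fun p : ℝ × ℝ => c' + l' * p.1 + p.2) := by fun_prop
      exact (e1 (hmeas δ)).inter (e2 (hmeas δ))
    have hm' : MeasurableSet {p : ℝ × ℝ | nr δ ((p.2 + (c - c')) + (l - l') * p.1) ∧ nr δ p.2} := by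
      have e1 : Measurable (fun p : ℝ × ℝ => (p.2 + (c - c')) + (l - l') * p.1) := by fun_prop
      have e2 : Measurable (fun p : ℝ × ℝ => p.2) := by fun_prop
      exact (e1 (hmeas δ)).inter (e2 (hmeas δ))
    have hstep : Pool.Agent.H705.RO.sq {p : ℝ × ℝ | nr δ (c + l * p.1 + p.2) ∧ nr δ (c' + l' * p.1 + p.2)} =
        Pool.Agent.H705.RO.sq {p : ℝ × ℝ | nr δ ((p.2 + (c - c')) + (l - l') * p.1) ∧ nr δ p.2} := by
      unfold Pool.Agent.H705.RO.sq
      rw [Measure.prod_apply hm, Measure.prod_apply hm']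
      refine lintegral_congr fun u => ?_
      rw [Measure.restrict_apply (measurable_prodMk_left hm),
        Measure.restrict_apply (measurable_prodMk_left hm')]
      have hBm : MeasurableSet {y : ℝ | nr δ (y + (c - c') + (l - l') * u) ∧ nr δ y} := by
        have e1 : Measurable (fun y : ℝ => y + (c - c') + (l - l') * u) := by fun_prop
        exact (e1 (hmeas δ)).inter (hmeas δ)
      have hBp : ∀ (y : ℝ) (n : ℤ), y + n ∈ {y : ℝ | nr δ (y + (c - c') + (l - l') * u) ∧ nr δ y} ↔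
          y ∈ {y : ℝ | nr δ (y + (c - c') + (l - l') * u) ∧ nr δ y} := by
        intro y n
        simp only [Set.mem_ofPred_eq]
        rw [nr_add_int, show y + (n : ℝ) + (c - c') + (l - l') * u =
          (y + (c - c') + (l - l') * u) + n by ring, nr_add_int]
      have hs := shift _ hBm hBp (c' + l' * u)
      have e1 : (Prod.mk u ⁻¹' {p : ℝ × ℝ | nr δ (c + l * p.1 + p.2) ∧ nr δ (c' + l' * p.1 + p.2)} ∩
          Set.Icc (0 : ℝ) 1) = {v : ℝ | v ∈ Set.Icc (0 : ℝ) 1 ∧ c' + l' * u + v ∈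
            {y : ℝ | nr δ (y + (c - c') + (l - l') * u) ∧ nr δ y}} := by
        ext v
        simp only [Set.mem_inter_iff, Set.mem_preimage, Set.mem_ofPred_eq]
        rw [show c' + l' * u + v + (c - c') + (l - l') * u = c + l * u + v by ring]
        exact and_comm
      have e2 : (Prod.mk u ⁻¹' {p : ℝ × ℝ | nr δ ((p.2 + (c - c')) + (l - l') * p.1) ∧ nr δ p.2} ∩
          Set.Icc (0 : ℝ) 1) = {v : ℝ | v ∈ Set.Icc (0 : ℝ) 1 ∧ v ∈
            {y : ℝ | nr δ (y + (c - c') + (l - l') * u) ∧ nr δ y}} := by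
        ext v
        simp only [Set.mem_inter_iff, Set.mem_preimage, Set.mem_ofPred_eq]
        exact and_comm
      rw [e1, e2]
      exact hs
    rw [hstep]
    unfold Pool.Agent.H705.RO.sq
    rw [Measure.prod_apply_symm hm']
    have h2 : ∀ v : ℝ, ((volume : Measure ℝ).restrict (Set.Icc (0 : ℝ) 1))
        ((fun u => (u, v)) ⁻¹' {p : ℝ × ℝ | nr δ ((p.2 + (c - c')) + (l - l') * p.1) ∧ nr δ p.2}) ≤
        {y : ℝ | nr δ y}.indicator (fun _ => ENNReal.ofReal (δ * (1 + 1 / |l - l'|))) v := by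
      intro v
      by_cases hv : nr δ v
      · rw [Set.indicator_of_mem (by exact hv)]
        rw [Measure.restrict_apply (measurable_prodMk_right hm')]
        refine le_trans (measure_mono ?_) (hARU (v + (c - c')) (l - l') δ hd h0 h1)
        rintro u ⟨h3, h4⟩
        exact ⟨h4, h3.1⟩
      · have e : ((fun u => (u, v)) ⁻¹' {p : ℝ × ℝ | nr δ ((p.2 + (c - c')) + (l - l') * p.1) ∧
            nr δ p.2}) = ∅ := by
          ext u
          simp only [Set.mem_preimage, Set.mem_ofPred_eq, Set.mem_empty_iff_false, iff_false]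
          exact fun h => hv h.2
        rw [e, measure_empty]
        exact zero_le
    refine (lintegral_mono h2).trans ?_
    rw [lintegral_indicator_const (hmeas δ), Measure.restrict_apply (hmeas δ)]
    have h3 : (volume : Measure ℝ) ({y : ℝ | nr δ y} ∩ Set.Icc (0 : ℝ) 1) = ENNReal.ofReal δ := by
      rw [← harc2 0 δ h0 h1]
      congr 1
      ext v
      simp only [Set.mem_inter_iff, Set.mem_ofPred_eq, zero_add]
      exact and_comm
    rw [h3, ← ENNReal.ofReal_mul (mul_nonneg h0 (by positivity))]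
    apply ENNReal.ofReal_le_ofReal
    apply le_of_eq
    ring

end Pool.Agent.H922.ROP
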