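import Mathlib
import Pool.Agent.H958.RO.Stm

/-! # Addresses in a forest -/

set_option autoImplicit false

namespace Pool.Agent.H922.RO.Addr

open Pool.Agent.H958.RO

theorem uniq {n : ℕ} {E : Finset (Fin n × Fin n)} {A : Finset (Fin n)} {v u w : Fin n}
    (h : dg E A v ≤ 1) (hu : u ∈ A) (hu' : (GG E).Adj v u) (hw : w ∈ A) (hw' : (GG E).Adj v w) :
    w = u := by
  classical
  unfold dg at h
  have h1 := Finset.card_le_one.1 h
  exact h1 w (by rw [Finset.mem_filter]; exact ⟨hw, hw'⟩) u
    (by rw [Finset.mem_filter]; exact ⟨hu, hu'⟩)

theorem main : S_ADDR := by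
  intro n E A
  induction A using Finset.strongInduction with
  | H A ih =>
    intro hF
    rcases A.eq_empty_or_nonempty with hA | hA
    · refine ⟨fun _ => [], ?_, ?_⟩
      · intro a ha
        rw [hA] at ha
        exact absurd ha (Finset.notMem_empty a)
      · intro a ha
        rw [hA] at ha
        exact absurd ha (Finset.notMem_empty a)
    · obtain ⟨v, hv, hdg⟩ := hF A (Finset.Subset.refl A) hA
      have hF' : Forest E (A.erase v) :=
        fun B hB hne => hF B (hB.trans (Finset.erase_subset v A)) hne
      obtain ⟨addr', h1, h2⟩ := ih (A.erase v) (Finset.erase_ssubset hv) hF'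
      by_cases hu : ∃ u ∈ A, (GG E).Adj v u
      · obtain ⟨u, huA, huv⟩ := hu
        have hune : u ≠ v := huv.ne.symm
        obtain ⟨addr, hav, hao⟩ : ∃ addr : Fin n → List (Fin n), addr v = addr' u ++ [v] ∧
            ∀ a, a ≠ v → addr a = addr' a :=
          ⟨Function.update addr' v (addr' u ++ [v]), Function.update_self _ _ _,
            fun a ha => Function.update_of_ne ha _ _⟩
        have hav' : addr v = addr u ++ [v] := by rw [hav, hao u hune]
        refine ⟨addr, ?_, ?_⟩
        · intro a ha
          by_cases hav2 : a = v
          · rw [hav2]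
            exact Or.inr ⟨u, huA, huv, hav'⟩
          · rw [hao a hav2]
            rcases h1 a (Finset.mem_erase.2 ⟨hav2, ha⟩) with h3 | ⟨b, hb, hab, h3⟩
            · exact Or.inl h3
            · rw [Finset.mem_erase] at hb
              refine Or.inr ⟨b, hb.2, hab, ?_⟩
              rw [h3, hao b hb.1]
        · intro a ha b hb hab
          by_cases hav2 : a = v
          · rw [hav2] at hab ⊢
            have hbu : b = u := uniq hdg huA huv hb hab
            rw [hbu]
            exact Or.inl hav'
          · by_cases hbv2 : b = v
            · rw [hbv2] at hab ⊢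
              have hau : a = u := uniq hdg huA huv ha hab.symm
              rw [hau]
              exact Or.inr hav'
            · rw [hao a hav2, hao b hbv2]
              exact h2 a (Finset.mem_erase.2 ⟨hav2, ha⟩) b (Finset.mem_erase.2 ⟨hbv2, hb⟩) hab
      · obtain ⟨addr, hav, hao⟩ : ∃ addr : Fin n → List (Fin n), addr v = [v] ∧
            ∀ a, a ≠ v → addr a = addr' a :=
          ⟨Function.update addr' v [v], Function.update_self _ _ _,
            fun a ha => Function.update_of_ne ha _ _⟩
        refine ⟨addr, ?_, ?_⟩
        · intro a ha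
          by_cases hav2 : a = v
          · rw [hav2]
            exact Or.inl hav
          · rw [hao a hav2]
            rcases h1 a (Finset.mem_erase.2 ⟨hav2, ha⟩) with h3 | ⟨b, hb, hab, h3⟩
            · exact Or.inl h3
            · rw [Finset.mem_erase] at hb
              refine Or.inr ⟨b, hb.2, hab, ?_⟩
              rw [h3, hao b hb.1]
        · intro a ha b hb hab
          by_cases hav2 : a = v
          · rw [hav2] at hab
            exact absurd ⟨b, hb, hab⟩ hu
          · by_cases hbv2 : b = v
            · rw [hbv2] at hab
              exact absurd ⟨a, ha, hab.symm⟩ hu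
            · rw [hao a hav2, hao b hbv2]
              exact h2 a (Finset.mem_erase.2 ⟨hav2, ha⟩) b (Finset.mem_erase.2 ⟨hbv2, hb⟩) hab

end Pool.Agent.H922.RO.Addr
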